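import Pool.Agent.H654R5.PT.Stm

/-!
# Truth-table reductions to the random strings: the bits of the code are computable
-/

namespace Pool.Agent.H654R5.PT.CP2

open Pool.Agent.NPC

theorem pow_prim : Primrec₂ ((· ^ ·) : ℕ → ℕ → ℕ) := Primrec₂.unpaired'.1 Nat.Primrec.pow

theorem prime_prim : PrimrecPred Nat.Prime := by
  have hR : PrimrecRel (fun (x y : ℕ) => ¬ (y % x = 0) ∨ x = 1) := by
    have h1 : PrimrecRel (fun (x y : ℕ) => y % x = 0) :=
      Primrec.eq.comp (Primrec.nat_mod.comp Primrec.snd Primrec.fst) (Primrec.const 0)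
    have h2 : PrimrecRel (fun (x _ : ℕ) => x = 1) :=
      Primrec.eq.comp Primrec.fst (Primrec.const 1)
    exact PrimrecPred.or (PrimrecPred.not h1) h2
  have h3 : PrimrecPred (fun p : ℕ => ∀ x < p, (¬ (p % x = 0) ∨ x = 1)) :=
    (PrimrecRel.forall_lt hR).comp Primrec.id Primrec.id
  have h4 : PrimrecPred (fun p : ℕ => 2 ≤ p) :=
    Primrec.nat_le.comp (Primrec.const 2) Primrec.id
  refine (h4.and h3).of_eq ?_
  intro p
  rw [Nat.prime_def_lt]
  constructor
  · rintro ⟨ha, hb⟩
    refine ⟨ha, fun m hm hd => ?_⟩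
    rcases hb m hm with h | h
    · exact absurd (Nat.mod_eq_zero_of_dvd hd) h
    · exact h
  · rintro ⟨ha, hb⟩
    refine ⟨ha, fun m hm => ?_⟩
    by_cases h : p % m = 0
    · exact Or.inr (hb m hm (Nat.dvd_of_mod_eq_zero h))
    · exact Or.inl h

theorem leastPrime_prim : Primrec leastPrime := by
  have h1 : Primrec (fun m : ℕ => (List.range m).map (fun i => m + i)) :=
    Primrec.list_map Primrec.list_range (Primrec.nat_add)
  have h2 : Primrec (fun L : List ℕ => L.filter (fun p => decide (p.Prime))) :=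
    Primrec.listFilter prime_prim
  have h3 : Primrec (fun m : ℕ =>
      ((((List.range m).map (fun i => m + i)).filter (fun p => decide (p.Prime))).head?).getD 0) :=
    Primrec.option_getD.comp (Primrec.list_head?.comp (h2.comp h1)) (Primrec.const 0)
  refine h3.of_eq ?_
  intro m
  rw [leastPrime, List.head?_filter]

theorem pr_prim : Primrec pr := by
  have h1 : Primrec (fun g : ℕ => 3 * g + 10) :=
    Primrec.nat_add.comp (Primrec.nat_mul.comp (Primrec.const 3) Primrec.id) (Primrec.const 10)
  exact leastPrime_prim.comp (pow_prim.comp (Primrec.const 2) h1)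

theorem bq_prim : Primrec bq :=
  Primrec.nat_add.comp (Primrec.nat_mul.comp (Primrec.const 3) Primrec.id) (Primrec.const 10)

theorem testBit_prim : Primrec₂ Nat.testBit := by
  have h1 : Primrec (fun p : ℕ × ℕ => decide (p.1 / 2 ^ p.2 % 2 = 1)) :=
    (Primrec.eq.comp (Primrec.nat_mod.comp (Primrec.nat_div.comp Primrec.fst
      (pow_prim.comp (Primrec.const 2) Primrec.snd)) (Primrec.const 2)) (Primrec.const 1)).decide
  refine (h1.of_eq ?_)
  rintro ⟨a, b⟩
  exact Nat.testBit_eq_decide_div_mod_eq.symm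

theorem resid_prim : Primrec (fun x : ℕ × List Bool × ℕ => resid x.1 x.2.1 x.2.2) := by
  have hstep : Primrec₂ (fun (x : ℕ × List Bool × ℕ) (y : Bool × ℕ) =>
      (y.1.toNat + x.2.2 * y.2) % x.1) := by
    have e1 : Primrec (fun q : (ℕ × List Bool × ℕ) × (Bool × ℕ) => q.2.1.toNat) :=
      (Primrec.dom_bool Bool.toNat).comp (Primrec.fst.comp Primrec.snd)
    have e2 : Primrec (fun q : (ℕ × List Bool × ℕ) × (Bool × ℕ) => q.1.2.2 * q.2.2) :=
      Primrec.nat_mul.comp (Primrec.snd.comp (Primrec.snd.comp Primrec.fst))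
        (Primrec.snd.comp Primrec.snd)
    exact Primrec.nat_mod.comp (Primrec.nat_add.comp e1 e2) (Primrec.fst.comp Primrec.fst)
  exact Primrec.list_foldr (Primrec.fst.comp Primrec.snd) (Primrec.const 0) hstep

theorem dot_prim : Primrec₂ dot := by
  have hstep : Primrec₂ (fun (x : ℕ × List Bool) (y : ℕ × Bool) =>
      xor (x.1.testBit y.1 && x.2.getD y.1 false) y.2) := by
    have e1 : Primrec (fun q : (ℕ × List Bool) × (ℕ × Bool) => q.1.1.testBit q.2.1) :=
      testBit_prim.comp (Primrec.fst.comp Primrec.fst) (Primrec.fst.comp Primrec.snd)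
    have e2 : Primrec (fun q : (ℕ × List Bool) × (ℕ × Bool) => q.1.2.getD q.2.1 false) :=
      (Primrec.list_getD false).comp (Primrec.snd.comp Primrec.fst) (Primrec.fst.comp Primrec.snd)
    exact (Primrec.dom_bool₂ xor).comp (Primrec.and.comp e1 e2) (Primrec.snd.comp Primrec.snd)
  exact Primrec.list_foldr (Primrec.list_range.comp (Primrec.list_length.comp Primrec.snd))
    (Primrec.const false) hstep

theorem valB_foldr (z : List Bool) :
    z.foldr (fun b acc => (if b then 1 else 0) + 2 * acc) 0 = valB z := by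
  induction z with
  | nil => rfl
  | cons b l ih => rw [List.foldr_cons, ih]; rfl

theorem valB_prim : Primrec valB := by
  have hstep : Primrec₂ (fun (_ : List Bool) (y : Bool × ℕ) => (if y.1 then 1 else 0) + 2 * y.2) := by
    have e1 : Primrec (fun q : List Bool × (Bool × ℕ) => (if q.2.1 then 1 else 0 : ℕ)) :=
      (Primrec.dom_bool (fun b => (if b then 1 else 0 : ℕ))).comp (Primrec.fst.comp Primrec.snd)
    have e2 : Primrec (fun q : List Bool × (Bool × ℕ) => 2 * q.2.2) :=
      Primrec.nat_mul.comp (Primrec.const 2) (Primrec.snd.comp Primrec.snd)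
    exact Primrec.nat_add.comp e1 e2
  have h : Primrec (fun z : List Bool => z.foldr (fun b acc => (if b then 1 else 0) + 2 * acc) 0) :=
    Primrec.list_foldr Primrec.id (Primrec.const 0) hstep
  exact h.of_eq valB_foldr

theorem code_prim : Primrec (fun x : ℕ × List Bool × List Bool => code x.1 x.2.1 x.2.2) := by
  have e0 : Primrec (fun x : ℕ × List Bool × List Bool => bq x.1) := bq_prim.comp Primrec.fst
  have ez : Primrec (fun x : ℕ × List Bool × List Bool => x.2.2) := Primrec.snd.comp Primrec.snd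
  have e1 : Primrec (fun x : ℕ × List Bool × List Bool => valB (x.2.2.take (bq x.1))) :=
    valB_prim.comp (Primrec.list_take.comp e0 ez)
  have e2 : Primrec (fun x : ℕ × List Bool × List Bool => x.2.2.drop (bq x.1)) :=
    Primrec.list_drop.comp e0 ez
  have e3 : Primrec (fun x : ℕ × List Bool × List Bool =>
      resid (pr x.1) x.2.1 (valB (x.2.2.take (bq x.1)))) :=
    resid_prim.comp ((pr_prim.comp Primrec.fst).pair
      ((Primrec.fst.comp Primrec.snd).pair e1))
  exact dot_prim.comp e3 e2

theorem CP2_proof : S_CP2 := code_prim.to_comp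

end Pool.Agent.H654R5.PT.CP2
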